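import Pool.Agent.R716.Cover

/-!
# Genericity and finite covers of degree prime to the residue characteristic

If the order of the kernel `Z` of the finite cover is prime to the residue characteristic `p`, then
for every subgroup `N` of unipotent elements and every character `ψ` of `N` the spaces
`Hom_N(ind_K^G ρ, ψ)` and `Hom_N(ind_K̃^G̃ ρ̃, ψ)` are isomorphic.
-/

open Topology Filter
open Pool.Agent.R716

namespace Pool.Agent.Results.MP_eb52a2_al.CoverDegreePrimeToP

/-! ## Powers of unipotent matrices -/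

section Pow

variable {F : Type} [NontriviallyNormedField F] [IsUltrametricDist F] {p : ℕ} [Fact p.Prime]

lemma choose_tendsto (hp : ‖(p : F)‖ < 1) {j : ℕ} (hj : j ≠ 0) :
    Tendsto (fun k : ℕ => ((p ^ k).choose j : F)) atTop (𝓝 0) := by
  have hpp : p.Prime := Fact.out
  obtain ⟨v, j', hj', rfl⟩ := Nat.exists_eq_pow_mul_and_not_dvd hj p hpp.ne_one
  have hdvd : ∀ k, v ≤ k → p ^ (k - v) ∣ (p ^ k).choose (p ^ v * j') := by
    intro k hk
    have h1 : (p ^ v * j') * (p ^ k).choose (p ^ v * j') =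
        p ^ k * (p ^ k - 1).choose (p ^ v * j' - 1) := by
      obtain ⟨a, ha⟩ := Nat.exists_eq_succ_of_ne_zero (pow_ne_zero k hpp.ne_zero)
      obtain ⟨b, hb⟩ := Nat.exists_eq_succ_of_ne_zero hj
      rw [ha, hb, Nat.succ_sub_one, Nat.succ_sub_one]
      have := Nat.add_one_mul_choose_eq a b
      rw [Nat.succ_eq_add_one, Nat.succ_eq_add_one]
      linarith
    have h2 : p ^ (k - v) ∣ j' * (p ^ k).choose (p ^ v * j') := by
      have h3 : p ^ v * (j' * (p ^ k).choose (p ^ v * j')) =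
          p ^ v * (p ^ (k - v) * (p ^ k - 1).choose (p ^ v * j' - 1)) := by
        rw [← mul_assoc, h1, ← mul_assoc, ← pow_add, Nat.add_sub_cancel' hk]
      exact ⟨_, Nat.eq_of_mul_eq_mul_left (pow_pos hpp.pos v) h3⟩
    exact (Nat.Coprime.pow_left _ ((Nat.Prime.coprime_iff_not_dvd hpp).2 hj')).dvd_of_dvd_mul_left
      h2
  rw [tendsto_zero_iff_norm_tendsto_zero]
  have hlim : Tendsto (fun k : ℕ => ‖(p : F)‖ ^ (k - v)) atTop (𝓝 0) :=
    (tendsto_pow_atTop_nhds_zero_of_lt_one (norm_nonneg _) hp).comp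
      (tendsto_sub_atTop_nat v)
  refine squeeze_zero' (Eventually.of_forall fun k => norm_nonneg _) ?_ hlim
  filter_upwards [eventually_ge_atTop v] with k hk
  obtain ⟨c, hc⟩ := hdvd k hk
  rw [hc, Nat.cast_mul, norm_mul, Nat.cast_pow, norm_pow]
  exact mul_le_of_le_one_right (pow_nonneg (norm_nonneg _) _)
    (IsUltrametricDist.norm_natCast_le_one F c)

lemma matrix_pow_tendsto (hp : ‖(p : F)‖ < 1) {m : ℕ} {A : Matrix (Fin m) (Fin m) F}
    (hA : IsNilpotent (A - 1)) : Tendsto (fun k : ℕ => A ^ (p ^ k)) atTop (𝓝 1) := by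
  obtain ⟨M, hM⟩ := hA
  have hM0 : (A - 1) ^ (M + 1) = 0 := by rw [pow_succ, hM, zero_mul]
  have h1 : ∀ n : ℕ, A ^ n = ∑ j ∈ Finset.range (M + 1), (n.choose j : F) • (A - 1) ^ j := by
    intro n
    have h2 : A ^ n = ∑ j ∈ Finset.range (n + 1), (n.choose j : F) • (A - 1) ^ j := by
      conv_lhs => rw [← sub_add_cancel A 1]
      rw [(Commute.one_right (A - 1)).add_pow]
      refine Finset.sum_congr rfl fun j _ => ?_
      rw [one_pow, mul_one, ← nsmul_eq_mul', Nat.cast_smul_eq_nsmul]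
    rw [h2]
    rcases le_total n M with h | h
    · refine Finset.sum_subset (Finset.range_mono (by omega)) fun j _ hj => ?_
      rw [Nat.choose_eq_zero_of_lt (by simpa using hj)]
      simp
    · symm
      refine Finset.sum_subset (Finset.range_mono (by omega)) fun j _ hj => ?_
      have : (A - 1) ^ j = 0 := pow_eq_zero_of_le (by simpa using hj) hM0
      rw [this, smul_zero]
  simp_rw [h1]
  have h3 : ∑ j ∈ Finset.range (M + 1), (if j = 0 then (1 : F) else 0) • (A - 1) ^ j = 1 := by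
    simp
  have h5 : Tendsto (fun k : ℕ => ∑ j ∈ Finset.range (M + 1),
      ((p ^ k).choose j : F) • (A - 1) ^ j) atTop
      (𝓝 (∑ j ∈ Finset.range (M + 1), (if j = 0 then (1 : F) else 0) • (A - 1) ^ j)) := by
    refine tendsto_finsetSum _ fun j _ => ?_
    have h4 : Tendsto (fun k : ℕ => ((p ^ k).choose j : F)) atTop
        (𝓝 (if j = 0 then (1 : F) else 0)) := by
      by_cases hj : j = 0
      · subst hj
        simp
      · simp only [hj, if_false]
        exact choose_tendsto hp hj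
    exact h4.smul_const ((A - 1) ^ j)
  rw [h3] at h5
  exact h5

lemma GL_pow_tendsto (hp : ‖(p : F)‖ < 1) {m : ℕ} {A : Matrix.GeneralLinearGroup (Fin m) F}
    (hA : IsNilpotent (A.1 - 1)) : Tendsto (fun k : ℕ => A ^ (p ^ k)) atTop (𝓝 1) := by
  have hA' : IsNilpotent (A⁻¹.1 - 1) := by
    have e : A⁻¹.1 - 1 = A⁻¹.1 * (-(A.1 - 1)) := by
      rw [mul_neg, mul_sub, Units.inv_mul, mul_one]
      abel
    rw [e]
    have hc : Commute A⁻¹.1 (-(A.1 - 1)) := by
      refine Commute.neg_right ?_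
      refine Commute.sub_right ?_ (Commute.one_right _)
      show A⁻¹.1 * A.1 = A.1 * A⁻¹.1
      rw [Units.inv_mul, Units.mul_inv]
    obtain ⟨M, hM⟩ := hA
    refine ⟨M, ?_⟩
    rw [hc.mul_pow, neg_pow, hM]
    simp
  rw [Units.isEmbedding_embedProduct.tendsto_nhds_iff]
  have h1 := matrix_pow_tendsto hp hA
  have h2 := matrix_pow_tendsto hp hA'
  have h3 : (Units.embedProduct (Matrix (Fin m) (Fin m) F)) 1 = (1, MulOpposite.op 1) := by simp
  rw [h3]
  refine Tendsto.prodMk_nhds ?_ ?_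
  · simpa using h1
  · refine (MulOpposite.continuous_op.tendsto 1).comp ?_
    simpa using h2

end Pow

/-! ## The comparison of the two splittings -/

section Core

variable {E G : Type} [Group E] [TopologicalSpace E] [IsTopologicalGroup E] [T2Space E]
  [Group G] [TopologicalSpace G] {π : E →* G} (hπ : IsFiniteCover π)

include hπ in
/-- a neighbourhood of `1` in the cover meets the kernel only in `1` -/
lemma ker_discrete : ∀ᶠ x in 𝓝 (1 : E), x ∈ π.ker → x = 1 := by
  have hfin0 : (π.ker : Set E).Finite := Set.finite_coe_iff.1 hπ.2.2.2.2.1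
  have hfin : ((π.ker : Set E) \ {1}).Finite := hfin0.sdiff
  have h : (((π.ker : Set E) \ {1})ᶜ) ∈ 𝓝 (1 : E) :=
    hfin.isClosed.isOpen_compl.mem_nhds (by simp)
  filter_upwards [h] with x hx hx'
  by_contra h1
  exact hx ⟨hx', h1⟩

variable [IsTopologicalGroup G] {K N : Subgroup G} {p : ℕ}

include hπ in
/-- The two splittings agree on the elements of `N` whose powers tend to `1`. -/
lemma core (hp : p.Prime) (hd : ¬ p ∣ Nat.card π.ker) {s : K →* E} (hs : IsSplitting π K s)
    {i : N →* E} (hi : IsSplitting π N i)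
    (hN : ∀ n : N, Tendsto (fun k : ℕ => n ^ (p ^ k)) atTop (𝓝 1)) {r : G} {r' : E}
    (hr : π r' = r) (n : N) (hn : r * n * r⁻¹ ∈ K) :
    r' * i n * r'⁻¹ = s ⟨r * n * r⁻¹, hn⟩ := by
  set a : E := r' * i n * r'⁻¹ with ha
  set b : E := s ⟨r * n * r⁻¹, hn⟩ with hb
  have hz : a * b⁻¹ ∈ π.ker := by
    rw [MonoidHom.mem_ker, map_mul, map_inv, ha, hb, hs.2, map_mul, map_mul, hi.2, map_inv,
      hr]
    group
  have hzc := Subgroup.mem_center_iff.1 (hπ.2.2.2.1 hz)
  have hpow : ∀ q : ℕ, (a * b⁻¹) ^ q = a ^ q * (b ^ q)⁻¹ := by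
    intro q
    have hcomm : Commute (a * b⁻¹) b := (hzc b).symm
    have : a ^ q = (a * b⁻¹) ^ q * b ^ q := by
      rw [← hcomm.mul_pow, inv_mul_cancel_right]
    rw [this, mul_inv_cancel_right]
  have ha' : ∀ q : ℕ, a ^ q = r' * i (n ^ q) * r'⁻¹ := by
    intro q
    rw [ha, conj_pow, map_pow]
  have hb' : ∀ q : ℕ, b ^ q = s (⟨r * n * r⁻¹, hn⟩ ^ q) := by
    intro q
    rw [hb, map_pow]
  have lim1 : Tendsto (fun k : ℕ => a ^ (p ^ k)) atTop (𝓝 1) := by
    simp_rw [ha']
    have hcont : Continuous fun x : N => r' * i x * r'⁻¹ := by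
      have := hi.1
      fun_prop
    have := (hcont.tendsto 1).comp (hN n)
    simpa [Function.comp_def] using this
  have lim2 : Tendsto (fun k : ℕ => b ^ (p ^ k)) atTop (𝓝 1) := by
    simp_rw [hb']
    have h1 : Tendsto (fun k : ℕ => (⟨r * n * r⁻¹, hn⟩ : K) ^ (p ^ k)) atTop (𝓝 1) := by
      rw [tendsto_subtype_rng]
      have hcont : Continuous fun x : N => r * (x : G) * r⁻¹ := by fun_prop
      have := (hcont.tendsto 1).comp (hN n)
      refine Tendsto.congr (fun k => ?_) (by simpa using this)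
      show r * ((n ^ p ^ k : N) : G) * r⁻¹ = _
      rw [Subgroup.coe_pow, Subgroup.coe_pow, conj_pow]
    have := (hs.1.tendsto 1).comp h1
    simpa [Function.comp_def] using this
  have lim3 : Tendsto (fun k : ℕ => (a * b⁻¹) ^ (p ^ k)) atTop (𝓝 1) := by
    simp_rw [hpow]
    simpa using lim1.mul lim2.inv
  obtain ⟨k, hk⟩ := (lim3.eventually (ker_discrete hπ)).exists
  have h1 : (a * b⁻¹) ^ (p ^ k) = 1 := hk (pow_mem hz _)
  have h2 : (a * b⁻¹) ^ (Nat.card π.ker) = 1 := by
    have : (⟨a * b⁻¹, hz⟩ : π.ker) ^ (Nat.card π.ker) = 1 := pow_card_eq_one'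
    simpa using congrArg Subtype.val this
  have h3 : (a * b⁻¹) ^ (Nat.gcd (p ^ k) (Nat.card π.ker)) = 1 :=
    pow_gcd_eq_one.2 ⟨h1, h2⟩
  have h4 : Nat.gcd (p ^ k) (Nat.card π.ker) = 1 :=
    Nat.Coprime.pow_left _ ((Nat.Prime.coprime_iff_not_dvd hp).2 hd)
  rw [h4, pow_one] at h3
  exact mul_inv_eq_one.1 h3

include hπ in
/-- There is a section of the cover which is compatible with the splittings over `K` and `N`. -/
lemma exists_section (hp : p.Prime) (hd : ¬ p ∣ Nat.card π.ker) {s : K →* E}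
    (hs : IsSplitting π K s) {i : N →* E} (hi : IsSplitting π N i)
    (hN : ∀ n : N, Tendsto (fun k : ℕ => n ^ (p ^ k)) atTop (𝓝 1)) :
    ∃ σ : G → E, (∀ g, π (σ g) = g) ∧
      ∀ (k : K) (g : G) (n : N), σ (k * g * n) = s k * σ g * i n := by
  classical
  let Q : Setoid G := DoubleCoset.setoid (K : Set G) (N : Set G)
  have hout : ∀ g : G, ∃ k : K, ∃ n : N, g = k * (Quotient.out (s := Q) (Quotient.mk Q g)) * n := by
    intro g
    have h : Q (Quotient.out (s := Q) (Quotient.mk Q g)) g := Quotient.mk_out (s := Q) g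
    obtain ⟨k, hk, n, hn, e⟩ := DoubleCoset.rel_iff.1 h
    exact ⟨⟨k, hk⟩, ⟨n, hn⟩, e⟩
  choose kk nn hkn using hout
  let lift : G → E := fun g => Function.surjInv hπ.2.2.1 g
  have hlift : ∀ g, π (lift g) = g := fun g => Function.surjInv_eq hπ.2.2.1 g
  let rr : G → G := fun g => Quotient.out (s := Q) (Quotient.mk Q g)
  have hwd : ∀ (k k' : K) (n n' : N) (r : G), (k : G) * r * n = k' * r * n' →
      s k * lift r * i n = s k' * lift r * i n' := by
    intro k k' n n' r h
    have e : r * ((n' * n⁻¹ : N) : G) * r⁻¹ = ((k'⁻¹ * k : K) : G) := by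
      push_cast
      have h' : (k' : G)⁻¹ * (k * r * n) = r * n' := by rw [h]; group
      calc r * (n' * (n : G)⁻¹) * r⁻¹ = (r * n') * (n : G)⁻¹ * r⁻¹ := by group
        _ = (k' : G)⁻¹ * (k * r * n) * (n : G)⁻¹ * r⁻¹ := by rw [h']
        _ = (k' : G)⁻¹ * k := by group
    have hm : r * ((n' * n⁻¹ : N) : G) * r⁻¹ ∈ K := by
      rw [e]
      exact (k'⁻¹ * k).2
    have h1 := core hπ hp hd hs hi hN (hlift r) (n' * n⁻¹) hm
    have h2 : (⟨r * ((n' * n⁻¹ : N) : G) * r⁻¹, hm⟩ : K) = k'⁻¹ * k := Subtype.ext e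
    rw [h2, map_mul, map_inv, map_mul, map_inv] at h1
    calc s k * lift r * i n = s k' * ((s k')⁻¹ * s k) * lift r * i n := by group
      _ = s k' * (lift r * (i n' * (i n)⁻¹) * (lift r)⁻¹) * lift r * i n := by rw [h1]
      _ = _ := by group
  refine ⟨fun g => s (kk g) * lift (rr g) * i (nn g), fun g => ?_, fun k g n => ?_⟩
  · rw [map_mul, map_mul, hs.2, hi.2, hlift]
    exact (hkn g).symm
  · have hr : rr (k * g * n) = rr g := by
      have : Quotient.mk Q (k * g * n) = Quotient.mk Q g := by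
        symm
        apply Quotient.sound
        exact DoubleCoset.rel_iff.2 ⟨k, k.2, n, n.2, rfl⟩
      show Quotient.out (s := Q) _ = Quotient.out (s := Q) _
      rw [this]
    have h1 := hkn (k * g * n)
    have h2 := hkn g
    change (k : G) * g * n = kk (k * g * n) * rr (k * g * n) * nn (k * g * n) at h1
    change g = kk g * rr g * nn g at h2
    show s (kk (k * g * n)) * lift (rr (k * g * n)) * i (nn (k * g * n)) = _
    rw [hr]
    rw [hr] at h1
    have h3 : (kk (k * g * n) : G) * rr g * nn (k * g * n) =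
        ((k * kk g : K) : G) * rr g * ((nn g * n : N) : G) := by
      rw [← h1]
      push_cast
      calc (k : G) * g * n = k * (kk g * rr g * nn g) * n := by rw [← h2]
        _ = _ := by group
    rw [hwd _ _ _ _ _ h3, map_mul, map_mul]
    group

variable {V : Type} [AddCommGroup V] [Module ℂ V]

/-- `ρ̃` is equal to `ρ ∘ s⁻¹` on `s(K)` and `Z = ker π` acts by the character `ε`. -/
def IsExt (π : E →* G) (ε : π.ker →* ℂˣ) (K : Subgroup G) (s : K →* E) (ρ : Representation ℂ K V)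
    (ρt : Representation ℂ (K.comap π) V) : Prop :=
  ∀ (x : K.comap π) (z : π.ker) (k : K), (x : E) = z * s k → ρt x = (ε z : ℂ) • ρ k

omit [TopologicalSpace E] [IsTopologicalGroup E] [T2Space E] [TopologicalSpace G]
  [IsTopologicalGroup G] in
lemma IsExt.apply {ε : π.ker →* ℂˣ} {s : K →* E} (hs : ∀ h : K, π (s h) = h)
    {ρ : Representation ℂ K V} {ρt : Representation ℂ (K.comap π) V} (h : IsExt π ε K s ρ ρt)
    (x : K.comap π) (hx : x.1 * (s (π.subgroupComap K x))⁻¹ ∈ π.ker) (v : V) :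
    ρt x v = (ε ⟨x.1 * (s (π.subgroupComap K x))⁻¹, hx⟩ : ℂ) • ρ (π.subgroupComap K x) v := by
  rw [h x ⟨x.1 * (s (π.subgroupComap K x))⁻¹, hx⟩ (π.subgroupComap K x)
    (inv_mul_cancel_right _ _).symm]
  rfl

omit [TopologicalSpace E] [IsTopologicalGroup E] [T2Space E] [TopologicalSpace G]
  [IsTopologicalGroup G] in
lemma ker_mem {s : K →* E} (hs : ∀ h : K, π (s h) = h) (x : K.comap π) :
    x.1 * (s (π.subgroupComap K x))⁻¹ ∈ π.ker := by
  rw [MonoidHom.mem_ker, map_mul, map_inv, hs]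
  exact mul_inv_cancel _

include hπ in
lemma extend_smooth {ε : π.ker →* ℂˣ} {s : K →* E} (hs : IsSplitting π K s)
    {ρ : Representation ℂ K V} (hρ : Smooth ρ) {ρt : Representation ℂ (K.comap π) V}
    (h : IsExt π ε K s ρ ρt) : Smooth ρt := by
  intro v
  have hc1 : Continuous fun x : K.comap π => π.subgroupComap K x := by
    refine Continuous.subtype_mk ?_ _
    exact hπ.1.comp continuous_subtype_val
  have hc2 : Continuous fun x : K.comap π => x.1 * (s (π.subgroupComap K x))⁻¹ := by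
    have := hs.1.comp hc1
    exact continuous_subtype_val.mul this.inv
  have h1 : Tendsto (fun x : K.comap π => π.subgroupComap K x) (𝓝 1) (𝓝 1) := by
    simpa using hc1.tendsto 1
  have h2 : Tendsto (fun x : K.comap π => x.1 * (s (π.subgroupComap K x))⁻¹) (𝓝 1) (𝓝 1) := by
    have := hc2.tendsto 1
    rwa [map_one, map_one, inv_one, mul_one] at this
  filter_upwards [h1.eventually (hρ v), h2.eventually (ker_discrete hπ)] with x hx hx'
  rw [h.apply hs.2 x (ker_mem hs.2 x)]
  have h3 : (⟨x.1 * (s (π.subgroupComap K x))⁻¹, ker_mem hs.2 x⟩ : π.ker) = 1 :=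
    Subtype.ext (hx' (ker_mem hs.2 x))
  rw [h3, map_one, Units.val_one, one_smul]
  exact hx

include hπ in
/-- Restriction along the section is an isomorphism `ind ρ̃ → ind ρ`, compatible with `N`. -/
lemma exists_equiv (hp : p.Prime) (hd : ¬ p ∣ Nat.card π.ker) {s : K →* E}
    (hs : IsSplitting π K s) {i : N →* E} (hi : IsSplitting π N i)
    (hN : ∀ n : N, Tendsto (fun k : ℕ => n ^ (p ^ k)) atTop (𝓝 1))
    (hK : IsOpen (K : Set G)) {ε : π.ker →* ℂˣ} {ρ : Representation ℂ K V} (hρ : Smooth ρ)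
    {ρt : Representation ℂ (K.comap π) V} (h : IsExt π ε K s ρ ρt) :
    ∃ Φ : cInd (K.comap π) ρt ≃ₗ[ℂ] cInd K ρ,
      (∀ (n : N) (f f' : cInd (K.comap π) ρt), (∀ x, f'.1 x = f.1 (x * i n)) →
        ∀ x, (Φ f').1 x = (Φ f).1 (x * n)) ∧
      (∀ (n : N) (f f' : cInd (K.comap π) ρt), (∀ x, (Φ f').1 x = (Φ f).1 (x * n)) →
        ∀ x, f'.1 x = f.1 (x * i n)) := by
  obtain ⟨σ, hσ1, hσ2⟩ := exists_section hπ hp hd hs hi hN
  have hKt : IsOpen ((K.comap π : Subgroup E) : Set E) := hK.preimage hπ.1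
  have hρt : Smooth ρt := extend_smooth hπ hs hρ h
  -- `f ↦ f ∘ σ`
  let Φ0 : cInd (K.comap π) ρt →ₗ[ℂ] cInd K ρ :=
    { toFun := fun f => ⟨fun g => f.1 (σ g), by
        obtain ⟨f, h1, h2, S, hS, h3⟩ := f
        have e1 : ∀ (k : K) (g : G), f (σ (k * g)) = ρ k (f (σ g)) := by
          intro k g
          have h4 := hσ2 k g 1
          rw [Subgroup.coe_one, mul_one, map_one, mul_one] at h4
          have hk : s k ∈ K.comap π := by
            rw [Subgroup.mem_comap, hs.2]
            exact k.2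
          have h5 : ρt ⟨s k, hk⟩ = ρ k := by
            have := h ⟨s k, hk⟩ 1 k (by simp)
            rw [this, map_one, Units.val_one, one_smul]
          rw [h4, ← h5]
          exact h1 ⟨s k, hk⟩ (σ g)
        have e3 : ∀ g, f (σ g) ≠ 0 → ∃ t ∈ π '' S, ∃ k ∈ K, g = k * t := by
          intro g hg
          obtain ⟨t, ht, k, hk, e⟩ := h3 _ hg
          refine ⟨π t, ⟨t, ht, rfl⟩, π k, hk, ?_⟩
          rw [← map_mul, ← e, hσ1]
        exact ⟨e1, cInd_smooth hK hρ e1 (hS.image _) e3, _, hS.image _, e3⟩⟩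
      map_add' := fun f f' => rfl
      map_smul' := fun a f => rfl }
  have hz : ∀ x : E, x * (σ (π x))⁻¹ ∈ π.ker := by
    intro x
    rw [MonoidHom.mem_ker, map_mul, map_inv, hσ1, mul_inv_cancel]
  -- the inverse
  let Ψ0 : cInd K ρ →ₗ[ℂ] cInd (K.comap π) ρt :=
    { toFun := fun f => ⟨fun x => (ε ⟨x * (σ (π x))⁻¹, hz x⟩ : ℂ) • f.1 (π x), by
        obtain ⟨f, h1, h2, S, hS, h3⟩ := f
        have e1 : ∀ (k : K.comap π) (x : E),
            (ε ⟨k.1 * x * (σ (π (k.1 * x)))⁻¹, hz _⟩ : ℂ) • f (π (k.1 * x)) =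
            ρt k ((ε ⟨x * (σ (π x))⁻¹, hz x⟩ : ℂ) • f (π x)) := by
          intro k x
          have h4 := hσ2 (π.subgroupComap K k) (π x) 1
          rw [Subgroup.coe_one, mul_one, map_one, mul_one] at h4
          have hk : ((π.subgroupComap K k : K) : G) = π k.1 := rfl
          rw [hk, ← map_mul] at h4
          have h6 : f (π (k.1 * x)) = ρ (π.subgroupComap K k) (f (π x)) := by
            rw [← h1, hk, ← map_mul]
          have h5 : (⟨k.1 * x * (σ (π (k.1 * x)))⁻¹, hz _⟩ : π.ker) =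
              ⟨k.1 * (s (π.subgroupComap K k))⁻¹, ker_mem hs.2 k⟩ *
                ⟨x * (σ (π x))⁻¹, hz x⟩ := by
            apply Subtype.ext
            show k.1 * x * (σ (π (k.1 * x)))⁻¹ =
              k.1 * (s (π.subgroupComap K k))⁻¹ * (x * (σ (π x))⁻¹)
            have hc := Subgroup.mem_center_iff.1 (hπ.2.2.2.1 (hz x)) (s (π.subgroupComap K k))⁻¹
            rw [h4, mul_assoc k.1 _ (x * _), hc]
            group
          rw [h5, h6, map_mul, Units.val_mul, h.apply hs.2 k (ker_mem hs.2 k), map_smul, smul_smul]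
        have e3 : ∀ x, (ε ⟨x * (σ (π x))⁻¹, hz x⟩ : ℂ) • f (π x) ≠ 0 →
            ∃ t ∈ σ '' S, ∃ k ∈ K.comap π, x = k * t := by
          intro x hx
          have hx' : f (π x) ≠ 0 := by
            intro h
            apply hx
            rw [h, smul_zero]
          obtain ⟨t, ht, k, hk, e⟩ := h3 _ hx'
          refine ⟨σ t, ⟨t, ht, rfl⟩, x * (σ t)⁻¹, ?_, by group⟩
          rw [Subgroup.mem_comap, map_mul, map_inv, hσ1, e, mul_inv_cancel_right]
          exact hk
        exact ⟨e1, cInd_smooth hKt hρt e1 (hS.image _) e3, _, hS.image _, e3⟩⟩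
      map_add' := fun f f' => by
        ext x
        simp
      map_smul' := fun a f => by
        ext x
        simp [smul_comm a] }
  have hΦΨ : ∀ f, Φ0 (Ψ0 f) = f := by
    intro f
    apply Subtype.ext
    funext g
    show (ε ⟨σ g * (σ (π (σ g)))⁻¹, hz _⟩ : ℂ) • f.1 (π (σ g)) = f.1 g
    have h5 : (⟨σ g * (σ (π (σ g)))⁻¹, hz _⟩ : π.ker) = 1 := by
      apply Subtype.ext
      show σ g * (σ (π (σ g)))⁻¹ = 1
      rw [hσ1, mul_inv_cancel]
    rw [h5, map_one, Units.val_one, one_smul, hσ1]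
  have hcen : ∀ (f : cInd (K.comap π) ρt) (x : E),
      (ε ⟨x * (σ (π x))⁻¹, hz x⟩ : ℂ) • f.1 (σ (π x)) = f.1 x := by
    intro f x
    have hm : x * (σ (π x))⁻¹ ∈ K.comap π := by
      rw [Subgroup.mem_comap, MonoidHom.mem_ker.1 (hz x)]
      exact one_mem _
    have h1 := f.2.1 ⟨x * (σ (π x))⁻¹, hm⟩ (σ (π x))
    rw [h ⟨x * (σ (π x))⁻¹, hm⟩ ⟨x * (σ (π x))⁻¹, hz x⟩ 1 (by simp), map_one] at h1
    have h2 : ((⟨x * (σ (π x))⁻¹, hm⟩ : K.comap π) : E) * σ (π x) = x :=
      inv_mul_cancel_right _ _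
    rw [h2] at h1
    exact h1.symm
  have hΨΦ : ∀ f, Ψ0 (Φ0 f) = f := by
    intro f
    apply Subtype.ext
    funext x
    exact hcen f x
  refine ⟨LinearEquiv.ofLinearMap Φ0 Ψ0 (LinearMap.ext hΦΨ) (LinearMap.ext hΨΦ),
    fun n f f' hff' g => ?_, fun n f f' hff' x => ?_⟩
  · show f'.1 (σ g) = f.1 (σ (g * n))
    have h4 := hσ2 1 g n
    rw [Subgroup.coe_one, one_mul, map_one, one_mul] at h4
    rw [h4, hff']
  · have hff'' : ∀ g, f'.1 (σ g) = f.1 (σ g * i n) := by
      intro g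
      have h5 : f'.1 (σ g) = f.1 (σ (g * n)) := hff' g
      have h4 := hσ2 1 g n
      rw [Subgroup.coe_one, one_mul, map_one, one_mul] at h4
      rw [h5, h4]
    rw [← hcen f' x, hff'', ← hcen f (x * i n)]
    have h4 := hσ2 1 (π x) n
    rw [Subgroup.coe_one, one_mul, map_one, one_mul] at h4
    have h6 : σ (π (x * i n)) = σ (π x) * i n := by
      rw [map_mul, hi.2, h4]
    have h7 : (⟨x * i n * (σ (π (x * i n)))⁻¹, hz _⟩ : π.ker) = ⟨x * (σ (π x))⁻¹, hz x⟩ := by
      apply Subtype.ext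
      show x * i n * (σ (π (x * i n)))⁻¹ = x * (σ (π x))⁻¹
      rw [h6]
      group
    rw [h7, h6]

end Core

/-- The spaces `A`, `B` of linear functionals on `W`, `W'` are isomorphic (by a linear isomorphism of
the dual spaces). -/
def IsoSpaces {W W' : Type} [AddCommGroup W] [Module ℂ W] [AddCommGroup W'] [Module ℂ W']
    (A : Set (Module.Dual ℂ W)) (B : Set (Module.Dual ℂ W')) : Prop :=
  ∃ e : Module.Dual ℂ W ≃ₗ[ℂ] Module.Dual ℂ W', e '' A = B

/-- For a topological group `G`, a subgroup `N` of `G` and a prime `p`, the statement: for each finite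
cover `π : E → G` with cyclic kernel `Z` of order prime to `p`, each character `ε` of `Z`, each
open subgroup `K` of `G`, each splitting `s` over `K`, each smooth representation `ρ` of `K`, the
representation `ρ̃` of `Z s(K)` with `ρ̃(z s(k)) = ε(z) ρ(k)`, each splitting `i` over `N` and each
character `ψ` of `N`, the spaces `Hom_N(ind ρ̃, ψ)` and `Hom_N(ind ρ, ψ)` are isomorphic. -/
def CoverInvariant (p : ℕ) {G : Type} [Group G] [TopologicalSpace G] (N : Subgroup G) : Prop :=
  ∀ (E : Type) [Group E] [TopologicalSpace E] [IsTopologicalGroup E] [T2Space E] (π : E →* G),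
    IsFiniteCover π → ¬ p ∣ Nat.card π.ker → ∀ (ε : π.ker →* ℂˣ) (K : Subgroup G),
    IsOpen (K : Set G) → ∀ s : K →* E, IsSplitting π K s → ∀ (V : Type) [AddCommGroup V]
    [Module ℂ V] (ρ : Representation ℂ K V), Smooth ρ → ∀ ρt : Representation ℂ (K.comap π) V,
    IsExt π ε K s ρ ρt → ∀ i : N →* E, IsSplitting π N i → ∀ ψ : N →* ℂˣ,
    IsoSpaces (Whit (cInd (K.comap π) ρt) i ψ) (Whit (cInd K ρ) N.subtype ψ)

/-- **Genericity and covers of degree prime to `p`.** Let `F` be a field with a non-archimedean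
absolute value with `|p| < 1` (for instance a non-archimedean local field of residue characteristic
`p`), `G` a subgroup of `GL_m(F)` and `N` a subgroup of `G` which consists of unipotent matrices. Then
`Hom_N(ind ρ̃, ψ) ≅ Hom_N(ind ρ, ψ)` for all finite covers of `G` of degree prime to `p`. -/
theorem result (F : Type) [NontriviallyNormedField F] [IsUltrametricDist F] (p : ℕ) [Fact p.Prime]
    (hp : ‖(p : F)‖ < 1) (m : ℕ) (G : Subgroup (GL (Fin m) F)) (N : Subgroup G)
    (hN : ∀ n ∈ N, IsNilpotent ((n : GL (Fin m) F).1 - 1)) : CoverInvariant p N := by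
  intro E _ _ _ _ π hπ hd ε K hK s hs V _ _ ρ hρ ρt hρt i hi ψ
  have hN' : ∀ n : N, Tendsto (fun k : ℕ => n ^ (p ^ k)) atTop (𝓝 1) := by
    intro n
    rw [tendsto_subtype_rng, tendsto_subtype_rng]
    have := GL_pow_tendsto hp (hN n n.2)
    refine Tendsto.congr (fun k => ?_) this
    simp
  obtain ⟨Φ, hΦ, hΦ'⟩ := exists_equiv hπ Fact.out hd hs hi hN' hK hρ hρt
  refine ⟨Φ.symm.dualMap, ?_⟩
  ext l
  constructor
  · rintro ⟨l, hl, rfl⟩ n f f' hff'
    show l (Φ.symm f') = (ψ n : ℂ) * l (Φ.symm f)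
    apply hl
    apply hΦ'
    simpa using hff'
  · intro hl
    refine ⟨Φ.dualMap l, ?_, ?_⟩
    · intro n f f' hff'
      show l (Φ f') = (ψ n : ℂ) * l (Φ f)
      exact hl n _ _ (hΦ n f f' hff')
    · ext f
      simp

end Pool.Agent.Results.MP_eb52a2_al.CoverDegreePrimeToP
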