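import Pool.Agent.R716.Wild

/-!
# A cover of `Sp_4(ℚ_3)` of degree `3`: `Π` not generic, `Π̃` generic

For `G = Sp_4(ℚ_3)` there are a cover of degree `3`, a compact open subgroup `K`, a splitting over `K`
and `ρ` such that `Π` and `Π̃` are irreducible supercuspidal, `Π` is not generic and `Π̃` is generic.
-/

open Topology Filter
open Pool.Agent.R716 Pool.Agent.R716.Wild

namespace Pool.Agent.Results.MP_eb52a2_al.WildCoverExample

/-- **The negation of Q1.** There are a compact open subgroup `K` of `Sp_4(ℚ_3)`, a cover of
`Sp_4(ℚ_3)` of degree `3`, a faithful character of its kernel, a splitting over `K` and `ρ` such that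
`Π` and `Π̃` are irreducible supercuspidal, `Π` is not generic and `Π̃` is generic. -/
theorem result : ∃ K : Subgroup (SpQ 3), IsOpen (K : Set (SpQ 3)) ∧ IsCompact (K : Set (SpQ 3)) ∧
    CoverExample 3 IsWhittakerDatum K :=
  ⟨KK 3, KK_open, KK_compact, coverExample⟩

end Pool.Agent.Results.MP_eb52a2_al.WildCoverExample
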