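import Pool.Agent.R716.Wild

/-!
# Genericity and covers of degree divisible by `p`: all covers of `Sp_4(ℚ_3)`

For `G = Sp_4(ℚ_3)` there is a compact open subgroup `K` such that the equivalence of the question
(`ind ρ̃` is generic if and only if `ind ρ` is generic) fails for each finite cover of `G` of degree
divisible by `3` which splits over `K`.
-/

open Topology Filter
open Pool.Agent.R716 Pool.Agent.R716.Wild

namespace Pool.Agent.Results.MP_eb52a2_al.WildCoversFail

/-- **All covers of `Sp_4(ℚ_3)` of degree divisible by `3`.** There is a compact open subgroup `K` of
`Sp_4(ℚ_3)` such that for every finite cover of `Sp_4(ℚ_3)` of degree divisible by `3` which splits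
over `K`, and every faithful character of its kernel, there are a splitting over `K` and `ρ` such that
`Π` is irreducible supercuspidal and exactly one of `Π`, `Π̃` is generic. -/
theorem result : ∃ K : Subgroup (SpQ 3), IsOpen (K : Set (SpQ 3)) ∧ IsCompact (K : Set (SpQ 3)) ∧
    AllCoversFail 3 IsWhittakerDatum K :=
  ⟨KK 3, KK_open, KK_compact, allFail⟩

end Pool.Agent.Results.MP_eb52a2_al.WildCoversFail
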